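import Pool.Agent.helper93.TV.Spec2

/-! Row DW of TV: the connection of a skeletal category is flat. -/

namespace Pool.Agent.helper93.TV

open BigOperators Finset Matrix

theorem DW : DW_stmt := by
  intro hDT hDF hFP _ _ _ _ _ I V _ _ _ _ D X F hF m hc
  have hconn : D.Conn X (D.restr X F) := (hDT I V D X F hF.uf).1
  have key : ∀ n n' T, D.Op X n n' T →
      D.Phi X (D.restr X F) m n n' T = D.phiF F n n' T := by
    intro n n' T hT
    obtain ⟨h1, h2⟩ := hDF I V D X F hF n n' T hT
    have h3 := hFP I V D X (D.restr X F) hconn m hc n n' _ h1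
    rw [h2] at h3
    exact h3
  refine ⟨⟨hconn, ?_⟩, key⟩
  intro n _ n' _ p₀ q₀ hop
  rw [key n n' _ hop]
  exact hDF I V D X F hF n n' _ hop

end Pool.Agent.helper93.TV
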