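import Pool.Agent.helper93.TV.Spec3

/-! Row FIB of TV: fibre counting. -/

namespace Pool.Agent.helper93.TV

open BigOperators Finset

theorem FIB : FIB_stmt := by
  intro hFRI
  obtain ⟨C, hC⟩ := Pool.Agent.helper93.FR.asym_m
  refine ⟨max C 0, le_max_right _ _, ?_⟩
  intro k E hE M b hM hn hfib
  obtain ⟨hf, hc⟩ := hC M hM
  have hmem : ∀ i, (E i).ring ∈ Pool.Agent.helper93.FR.FRall M := by
    intro i
    obtain ⟨o, d, h⟩ := hE i
    obtain ⟨h1, h2, _⟩ := hFRI (E i) o d h
    refine ⟨⟨o, d, h1⟩, ?_⟩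
    show Pool.Agent.helper93.FR.total (E i).mult ≤ M
    rw [h2]
    exact hn i
  have himg : (univ.image fun i => (E i).ring) ⊆ hf.toFinset := by
    intro x hx
    rw [Set.Finite.mem_toFinset]
    obtain ⟨i, _, rfl⟩ := Finset.mem_image.1 hx
    exact hmem i
  have h1 : (univ : Finset (Fin k)).card ≤ b * (univ.image fun i => (E i).ring).card := by
    apply Finset.card_le_mul_card_image
    intro x hx
    obtain ⟨i, _, rfl⟩ := Finset.mem_image.1 hx
    exact hfib i
  rw [Finset.card_univ, Fintype.card_fin] at h1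
  have h2 : (univ.image fun i => (E i).ring).card ≤ hf.toFinset.card :=
    Finset.card_le_card himg
  have e2 : (Pool.Agent.helper93.FR.FRall M).ncard = hf.toFinset.card :=
    Set.ncard_eq_toFinset_card _ _
  have h3 : k ≤ hf.toFinset.card * b := by
    calc k ≤ b * (univ.image fun i => (E i).ring).card := h1
      _ ≤ b * hf.toFinset.card := Nat.mul_le_mul_left _ h2
      _ = hf.toFinset.card * b := Nat.mul_comm _ _
  have h4 : (k : ℝ) ≤ (hf.toFinset.card : ℝ) * b := by exact_mod_cast h3
  have h5 : (hf.toFinset.card : ℝ) ≤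
      Real.exp (max C 0 * (M : ℝ) ^ (7 / 8 : ℝ) * (Real.log M) ^ 2) := by
    rw [← e2]
    refine hc.trans (Real.exp_le_exp.2 ?_)
    apply mul_le_mul_of_nonneg_right _ (sq_nonneg _)
    apply mul_le_mul_of_nonneg_right (le_max_left _ _)
    exact Real.rpow_nonneg (Nat.cast_nonneg _) _
  exact h4.trans (mul_le_mul_of_nonneg_right h5 (Nat.cast_nonneg _))

end Pool.Agent.helper93.TV
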