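import Pool.Agent.helper93.TV.Spec2

/-! Row ON of TV: class sets are nonempty. -/

namespace Pool.Agent.helper93.TV

open BigOperators Finset Matrix

theorem ON : ON_stmt := by
  intro hDT hDW hDJ hDX I V _ _ _ _ D X m bp F hm hc hB hF
  have hconn : D.Conn X (D.restr X F) := (hDT I V D X F hF.uf).1
  obtain ⟨x, hx⟩ : ∃ x : D.Q X × Bool → ℝ, D.cof X x = D.restr X F := by
    refine ⟨fun z => if z.2 then
      (D.restr X F z.1.1.1 z.1.1.2.1 z.1.1.2.2.1 z.1.1.2.2.2).im else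
      (D.restr X F z.1.1.1 z.1.1.2.1 z.1.1.2.2.1 z.1.1.2.2.2).re, ?_⟩
    funext l e e' l'
    unfold FD.cof
    by_cases h : D.cp l e e' l' ∧ D.s1 l ∈ X ∧ D.s2 e ∈ X
    · rw [dif_pos h]
      apply Complex.ext
      · simp
      · simp
    · rw [dif_neg h]
      by_contra h0
      exact h (hconn.supp l e e' l' (Ne.symm h0))
  refine ⟨x, ?_⟩
  show D.Flat X (D.cof X x) m ∧ ∃ J, D.JS X (D.cof X x) m bp J ∧
    D.form X (D.cof X x) m bp J = F
  rw [hx]
  exact ⟨(hDW I V D X F hF m hc).1, D.J0 F bp, hDJ I V D X F hF m bp hc hB,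
    hDX I V D X F hF m bp hm hc hB⟩

end Pool.Agent.helper93.TV
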